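import Pool.Agent.H384R3.Vinc.Transfer

set_option autoImplicit false

/-!
# Permutations avoiding `23-1-4` are counted by the powered Catalan numbers

For `n ≥ 1` the number of permutations of size `n` avoiding the vincular pattern `23-1-4` equals
the number of vertices at level `n` of the tree of the powered Catalan numbers; moreover the
number of those avoiders with `k` right-to-left minima is the number of vertices at level `n`
with label `k`.
-/

namespace Pool.Agent.Results.MP_b374f8_co.PoweredCatalan

open Pool.Agent.H384R3.Vinc

/-- The avoiders of `23-1-4` are counted by the powered Catalan numbers, and the right-to-left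
minima correspond to the labels of the tree. -/
theorem result (n : ℕ) (hn : 1 ≤ n) :
    Nat.card {σ : Equiv.Perm (Fin n) // ¬ Contains2314 σ} = (levelLabels n).card ∧
    ∀ k : ℕ, Nat.card {σ : Equiv.Perm (Fin n) // ¬ Contains2314 σ ∧ rlMinima σ = k} =
      (levelLabels n).count k := by
  classical
  refine ⟨?_, fun k => ?_⟩
  · rw [← total n hn, Nat.card_eq_fintype_card]
  · rw [← refined n k hn, Nat.card_eq_fintype_card]

end Pool.Agent.Results.MP_b374f8_co.PoweredCatalan
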